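import Pool.Agent.Helper58.BG.Defs

/-!
# Statements of the geometric parts (swarm)
-/

set_option autoImplicit false
set_option linter.unusedSectionVars false

open Finset DirectSum

namespace Pool.Agent.Helper58.SH

open Pool.Agent.Helper766_CF Pool.Agent.Helper766_CG Pool.Agent.Helper766_CH
open Pool.Agent.Helper58.CS Pool.Agent.Helper58.OP Pool.Agent.Helper58.BG

variable {R : Type} [CommRing R] [Algebra ℂ R] {𝒜 : ℕ → Submodule ℂ R} [GradedAlgebra 𝒜]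
  {br : R →ₗ[ℂ] R →ₗ[ℂ] R} {C : Core 𝒜 br} {𝒢m 𝒢p : ℝ → Submodule ℂ R} [GradedAlgebra 𝒢m]
  [GradedAlgebra 𝒢p] {h : R}

namespace SpecG

/-- G5. A critical line maps to an even curve. (helper58) -/
theorem even_curve [IsDomain R] (S : Tj C 𝒢m 𝒢p h) {w : R →ₐ[ℂ] ℂ} {d : ℕ}
    {a : Fin d → 𝒢m 0} (F : Fr S.m w d a) {c v : Fin d → ℂ}
    (hc : MvPolynomial.aeval c (genPt S.m w a h) ≠ 0)
    (hv : ∀ b ∈ 𝒢p 0, ∑ i, v i * MvPolynomial.aeval c (MvPolynomial.pderiv i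
      (genPt S.m w a b)) = 0) :
    ∀ b ∈ 𝒢p 0, (pa S.m w a c v b).comp (-Polynomial.X) = pa S.m w a c v b := sorry

/-- G6. There are no critical points at which `h` is not zero. -/
theorem etale [IsDomain R] (S : Tj C 𝒢m 𝒢p h) {w : R →ₐ[ℂ] ℂ} {d : ℕ}
    {a : Fin d → 𝒢m 0} (F : Fr S.m w d a) {c v : Fin d → ℂ}
    (hc : MvPolynomial.aeval c (genPt S.m w a h) ≠ 0)
    (hv : ∀ b ∈ 𝒢p 0, ∑ i, v i * MvPolynomial.aeval c (MvPolynomial.pderiv i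
      (genPt S.m w a b)) = 0) : v = 0 := sorry

/-- G7. The local behaviour of `h` along a curve in the fibre. -/
theorem loc [IsDomain R] (S : Tj C 𝒢m 𝒢p h) {w : R →ₐ[ℂ] ℂ} {d : ℕ}
    {a : Fin d → 𝒢m 0} (F : Fr S.m w d a) {K : Type} [Field K] [Algebra ℂ K] [IsAlgClosed K]
    (D : Derivation ℂ K K) {τ : K} (hτ : D τ = 1)
    (halg : ∀ f : K, IsAlgebraic (IntermediateField.adjoin (ker D) {τ}) f)
    (V : ValuationSubring K) (hV : ∀ c ∈ ker D, c ∈ V) (hvτ : V.valuation τ < 1)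
    {x : R →ₐ[ℂ] K} (hx : Lat 𝒢m x) (hxm : ∀ r ∈ 𝒢m 0, x r = algebraMap ℂ K (w r))
    (hxp : ∀ b ∈ 𝒢p 0, x b ∈ Algebra.adjoin (ker D) {τ}) (hxh : x h ≠ 0) :
    V.valuation (x h) ≤ 1 ∧ (V.valuation (x h) = 1 → D (x h) ∈ V ∧ D (D (x h)) ∈ V) ∧
      (V.valuation (x h) < 1 → V.valuation (x h ^ 2) ≤ V.valuation τ) := sorry

/-- G8a. Companions are general points of their fibre. -/
theorem comp_embed [IsDomain R] (S : Tj C 𝒢m 𝒢p h) {w : R →ₐ[ℂ] ℂ} {d : ℕ} {a : Fin d → 𝒢m 0}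
    (F : Fr S.m w d a) {w' : R →ₐ[ℂ] ℂ} {d' : ℕ} {a' : Fin d' → 𝒢m 0} (F' : Fr S.m w' d' a')
    {E : Type} [Field E] [Algebra ℂ E] [IsAlgClosed E] (ι : MvPolynomial (Fin d) ℂ →ₐ[ℂ] E)
    (hι : Function.Injective ι)
    (halg : ∀ f : E, ∃ P : Polynomial (MvPolynomial (Fin d) ℂ), P ≠ 0 ∧
      P.eval₂ (ι : MvPolynomial (Fin d) ℂ →+* E) f = 0)
    {x' : R →ₐ[ℂ] E} (hx' : Lat 𝒢m x') (hm : ∀ r ∈ 𝒢m 0, x' r = algebraMap ℂ E (w' r))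
    (hp : ∀ b ∈ 𝒢p 0, x' b = ι (genPt S.m w a b)) :
    ∃ ι' : MvPolynomial (Fin d') ℂ →ₐ[ℂ] E, Function.Injective ι' ∧
      (∀ r, x' r = ι' (genPt S.m w' a' r)) ∧
      ∀ f : E, ∃ P : Polynomial (MvPolynomial (Fin d') ℂ), P ≠ 0 ∧
        P.eval₂ (ι' : MvPolynomial (Fin d') ℂ →+* E) f = 0 := sorry

/-- G8b. Companions exist. -/
theorem exists_companion [IsDomain R] (S : Tj C 𝒢m 𝒢p h) {w : R →ₐ[ℂ] ℂ} {d : ℕ}
    {a : Fin d → 𝒢m 0}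
    (F : Fr S.m w d a) {w' : R →ₐ[ℂ] ℂ} {d' : ℕ} {a' : Fin d' → 𝒢m 0} (F' : Fr S.m w' d' a')
    {E : Type} [Field E] [Algebra ℂ E] [IsAlgClosed E] (ι : MvPolynomial (Fin d) ℂ →ₐ[ℂ] E)
    (hι : Function.Injective ι) :
    ∃ ι' : MvPolynomial (Fin d') ℂ →ₐ[ℂ] E,
      ∀ b ∈ 𝒢p 0, ι' (genPt S.m w' a' b) = ι (genPt S.m w a b) := sorry

/-- G8. The square of the value of `h` at a companion is a quadratic form. -/
theorem quad [IsDomain R] (S : Tj C 𝒢m 𝒢p h) {w : R →ₐ[ℂ] ℂ} {d : ℕ} {a : Fin d → 𝒢m 0}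
    (F : Fr S.m w d a) {w' : R →ₐ[ℂ] ℂ} {d' : ℕ} {a' : Fin d' → 𝒢m 0} (F' : Fr S.m w' d' a')
    {E : Type} [Field E] [Algebra ℂ E] [IsAlgClosed E] (ι : MvPolynomial (Fin d) ℂ →ₐ[ℂ] E)
    (hι : Function.Injective ι)
    (halg : ∀ f : E, ∃ P : Polynomial (MvPolynomial (Fin d) ℂ), P ≠ 0 ∧
      P.eval₂ (ι : MvPolynomial (Fin d) ℂ →+* E) f = 0)
    {x' : R →ₐ[ℂ] E} (hx' : Lat 𝒢m x') (hm : ∀ r ∈ 𝒢m 0, x' r = algebraMap ℂ E (w' r))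
    (hp : ∀ b ∈ 𝒢p 0, x' b = ι (genPt S.m w a b)) :
    ∃ p : MvPolynomial (Fin d) ℂ, ι p = x' h ^ 2 ∧ p.IsHomogeneous 2 := sorry

/-- G9e. Even functions are fixed by the automorphisms over the `+` side and `h ^ 2`. -/
theorem even_fixed [IsDomain R] (S : Tj C 𝒢m 𝒢p h) {w : R →ₐ[ℂ] ℂ} {d : ℕ} {a : Fin d → 𝒢m 0}
    (F : Fr S.m w d a)
    {E : Type} [Field E] [Algebra ℂ E] [IsAlgClosed E] (ι : MvPolynomial (Fin d) ℂ →ₐ[ℂ] E)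
    (hι : Function.Injective ι)
    (halg : ∀ f : E, ∃ P : Polynomial (MvPolynomial (Fin d) ℂ), P ≠ 0 ∧
      P.eval₂ (ι : MvPolynomial (Fin d) ℂ →+* E) f = 0)
    (σ : E →ₐ[ℂ] E) (hσp : ∀ b ∈ 𝒢p 0, σ (ι (genPt S.m w a b)) = ι (genPt S.m w a b))
    (hσh : σ (ι (genPt S.m w a h)) ^ 2 = ι (genPt S.m w a h) ^ 2)
    {f : MvPolynomial (Fin d) ℂ} (hf : MvPolynomial.aeval (fun i => -MvPolynomial.X i) f = f) :
    σ (ι f) = ι f := sorry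

/-- G9f. The even functions which are integral over the `+` side are the same for all companions. -/
theorem transfer [IsDomain R] (S : Tj C 𝒢m 𝒢p h) {w : R →ₐ[ℂ] ℂ} {d : ℕ} {a : Fin d → 𝒢m 0}
    (F : Fr S.m w d a) {w' : R →ₐ[ℂ] ℂ} {d' : ℕ} {a' : Fin d' → 𝒢m 0} (F' : Fr S.m w' d' a')
    {E : Type} [Field E] [Algebra ℂ E] [IsAlgClosed E] (ι : MvPolynomial (Fin d) ℂ →ₐ[ℂ] E)
    (hι : Function.Injective ι)
    (halg : ∀ f : E, ∃ P : Polynomial (MvPolynomial (Fin d) ℂ), P ≠ 0 ∧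
      P.eval₂ (ι : MvPolynomial (Fin d) ℂ →+* E) f = 0)
    (ι' : MvPolynomial (Fin d') ℂ →ₐ[ℂ] E)
    (hp : ∀ b ∈ 𝒢p 0, ι' (genPt S.m w' a' b) = ι (genPt S.m w a b)) :
    (Sw S.toTs w a).map ι = (Sw S.toTs w' a').map ι' := sorry

/-- G9b. The ring of the even integral functions is unramified outside the vertex. -/
theorem unramified [IsDomain R] [IsIntegrallyClosed R] (S : Tj C 𝒢m 𝒢p h) {w : R →ₐ[ℂ] ℂ} {d : ℕ}
    {a : Fin d → 𝒢m 0} (F : Fr S.m w d a) (φ : R →ₐ[ℂ] Sw S.toTs w a)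
    (hφ : ∀ r, (φ r : MvPolynomial (Fin d) ℂ) = genPt S.m w a (S.p.lo r))
    (q : Sw S.toTs w a →ₐ[ℂ] ℂ) (hq : ¬ IsVertex 𝒜 (q.comp φ)) (δ : Sw S.toTs w a →ₗ[ℂ] ℂ)
    (hδ : IsDer q δ) (h0 : ∀ r, δ (φ r) = 0) : δ = 0 := sorry

/-- G9. If the `+` side has no nontrivial finite covering, it has no base points. -/
theorem gg_sc [IsDomain R] [IsIntegrallyClosed R] (S : Tj C 𝒢m 𝒢p h) (hSC : SC S.p)
    {z : R →ₐ[ℂ] ℂ} (hz : ∀ r, z (S.p.lo r) = z r) (hzv : ¬ IsVertex 𝒜 z) :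
    ∃ g ∈ 𝒜 1, g ∈ 𝒢p 0 ∧ z g ≠ 0 := sorry

end SpecG

end Pool.Agent.Helper58.SH
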