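import Pool.Agent.Helper58.BG.Fx

/-!
# Statements of the algebraic parts of the fixed point theorem (swarm)
-/

set_option autoImplicit false
set_option linter.unusedSectionVars false

open Finset DirectSum

namespace Pool.Agent.Helper58.SH

namespace SpecU

/-- U0. The grading by the powers of `W`. -/
theorem grading {T : Type} [CommRing T] [Algebra ℂ T] (W : Submodule ℂ T)
    (hfin : Module.Finite ℂ W) (hgen : Algebra.adjoin ℂ (W : Set T) = ⊤)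
    (E₀ : Derivation ℂ T T) (hE : ∀ a ∈ W, E₀ a = a) :
    Nonempty (GradedAlgebra (fun k : ℕ => W ^ k)) ∧ (∀ k : ℕ, Module.Finite ℂ (W ^ k : Submodule ℂ T)) ∧
      ∀ k : ℕ, ∀ r ∈ W ^ k, E₀ r = (k : ℂ) • r := sorry

/-- U1. Lie algebras with an automorphism of prime order with nilpotent fixed elements. -/
theorem solvable_of_fixed (L : Type) [LieRing L] [LieAlgebra ℂ L] [Module.Finite ℂ L]
    (g : L ≃ₗ⁅ℂ⁆ L) {p : ℕ} (hp : p.Prime) (hg : ∀ x, (g : L → L)^[p] x = x)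
    (hnil : ∀ x, g x = x → IsNilpotent (LieAlgebra.ad ℂ L x)) : LieAlgebra.IsSolvable L := sorry

/-- U2. Derivations preserve the minimal primes. -/
theorem der_minimal {T : Type} [CommRing T] [Algebra ℂ T] (I : Ideal T) (D : Derivation ℂ T T)
    (hD : ∀ a ∈ I, D a ∈ I) {q : Ideal T} (hq : q ∈ I.minimalPrimes) : ∀ a ∈ q, D a ∈ q := sorry

/-- U3. Tangent vectors which are not tangent to a proper closed subset. -/
theorem exists_normal {T : Type} [CommRing T] [IsDomain T] [Algebra ℂ T] [Algebra.FiniteType ℂ T]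
    {q : Ideal T} (hq : q.IsPrime) (hq0 : q ≠ ⊥) {w : T} (hw : w ∉ q) :
    ∃ z : T →ₐ[ℂ] ℂ, (∀ a ∈ q, z a = 0) ∧ z w ≠ 0 ∧
      ∃ δ : T →ₗ[ℂ] ℂ, IsDer z δ ∧ ∃ a ∈ q, δ a ≠ 0 := sorry

/-- U4. The case of two different eigenvalues: the sink. -/
theorem sink {T : Type} [CommRing T] [IsDomain T] [Algebra ℂ T] {W : Submodule ℂ T}
    {E₀ : Derivation ℂ T T} {γ : T ≃ₐ[ℂ] T} {p : ℕ} (X : Fx T W E₀ γ p)
    {u : Derivation ℂ T T} (hu : ∀ a ∈ W, u a ∈ W) (huγ : ∀ r, γ (u r) = u (γ r))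
    {a b : T} (ha : a ∈ W) (hb : b ∈ W) (ha0 : a ≠ 0) (hb0 : b ≠ 0) {l m : ℂ} (hlm : l ≠ m)
    (hua : u a = l • a) (hub : u b = m • b) :
    ∃ (T' : Type) (_ : CommRing T') (_ : IsDomain T') (_ : Algebra ℂ T') (W' : Submodule ℂ T')
      (E₀' : Derivation ℂ T' T') (γ' : T' ≃ₐ[ℂ] T'), Fx T' W' E₀' γ' p ∧
      Module.finrank ℂ W' < Module.finrank ℂ W ∧ (Fx.Pt W' γ' → Fx.Pt W γ) := sorry

/-- U5. If some element of `W` has no zeros outside the vertex there is a fixed point. -/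
theorem pt_of_no_zero {T : Type} [CommRing T] [IsDomain T] [Algebra ℂ T] {W : Submodule ℂ T}
    {E₀ : Derivation ℂ T T} {γ : T ≃ₐ[ℂ] T} {p : ℕ} (X : Fx T W E₀ γ p) {s : T} (hs : s ∈ W)
    (hs0 : s ≠ 0) (h0 : ∀ z : T →ₐ[ℂ] ℂ, z s = 0 → ∀ a ∈ W, z a = 0) : Fx.Pt W γ := sorry

/-- U6. If the derivations have a common eigenvector there is a fixed point. -/
theorem pt_of_eigen {T : Type} [CommRing T] [IsDomain T] [Algebra ℂ T] {W : Submodule ℂ T}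
    {E₀ : Derivation ℂ T T} {γ : T ≃ₐ[ℂ] T} {p : ℕ} (X : Fx T W E₀ γ p) {s : T} (hs : s ∈ W)
    (hs0 : s ≠ 0) (h0 : ∀ D : Derivation ℂ T T, (∀ a ∈ W, D a ∈ W) → ∃ c : ℂ, D s = c • s) :
    Fx.Pt W γ := sorry

/-- U7. If every derivation commuting with the automorphism has only one eigenvalue on `W`, the
derivations have a common eigenvector. -/
theorem exists_eigen {T : Type} [CommRing T] [IsDomain T] [Algebra ℂ T] {W : Submodule ℂ T}
    {E₀ : Derivation ℂ T T} {γ : T ≃ₐ[ℂ] T} {p : ℕ} (X : Fx T W E₀ γ p)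
    (h1 : ∀ u : Derivation ℂ T T, (∀ a ∈ W, u a ∈ W) → (∀ r, γ (u r) = u (γ r)) →
      ∀ a ∈ W, ∀ b ∈ W, a ≠ 0 → b ≠ 0 → ∀ l m : ℂ, u a = l • a → u b = m • b → l = m) :
    ∃ s ∈ W, s ≠ 0 ∧ ∀ D : Derivation ℂ T T, (∀ a ∈ W, D a ∈ W) → ∃ c : ℂ, D s = c • s := sorry

/-- U8. There is a fixed point. -/
theorem pt {T : Type} [CommRing T] [IsDomain T] [Algebra ℂ T] {W : Submodule ℂ T}
    {E₀ : Derivation ℂ T T} {γ : T ≃ₐ[ℂ] T} {p : ℕ} (X : Fx T W E₀ γ p) : Fx.Pt W γ := sorry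

end SpecU

end Pool.Agent.Helper58.SH
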