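import Pool.Agent.Helper58.BG.Cp
import Pool.Agent.Helper58.BG.SpecU

/-!
# Statements of the geometric parts of the unconditional theorem (swarm)
-/

set_option autoImplicit false
set_option linter.unusedSectionVars false

open Finset DirectSum

namespace Pool.Agent.Helper58.SH

open Pool.Agent.Helper766_CF Pool.Agent.Helper766_CG Pool.Agent.Helper766_CH
open Pool.Agent.Helper58.CS Pool.Agent.Helper58.OP Pool.Agent.Helper58.BG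

variable {R : Type} [CommRing R] [Algebra ℂ R] {𝒜 : ℕ → Submodule ℂ R} [GradedAlgebra 𝒜]
  {br : R →ₗ[ℂ] R →ₗ[ℂ] R} {C : Core 𝒜 br} {𝒢m 𝒢p : ℝ → Submodule ℂ R} [GradedAlgebra 𝒢m]
  [GradedAlgebra 𝒢p] {h : R}

namespace SpecV

variable {S : Tj C 𝒢m 𝒢p h} {E : Type} [Field E] [Algebra ℂ E] [IsAlgClosed E]

/-- V1. `h` times a linear form. -/
theorem lin_mem [IsDomain R] (c : Cp S E) (v : Fin c.d → ℂ) :
    c.x h * c.ι (∑ i, MvPolynomial.C (v i) * MvPolynomial.X i) ∈ c.gr 1 := sorry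

/-- V2. Related points have the same homogeneous elements. -/
theorem gr_eq [IsDomain R] {c c' : Cp S E} (hr : c.Rel c') (k : ℕ) : c'.gr k = c.gr k := sorry

/-- V2b. The ring is the sum of its homogeneous parts. -/
theorem le_iSup [IsDomain R] (c : Cp S E) {s : E} (hs : s ∈ c.SS) : s ∈ ⨆ k, c.gr k := sorry

/-- V3. Over every point of the `+` side there is a point at which `h` is not zero. -/
theorem exists_over [IsDomain R] (S : Tj C 𝒢m 𝒢p h) {z : R →ₐ[ℂ] ℂ}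
    (hz : ∀ r, z (S.p.lo r) = z r) (hzv : ¬ IsVertex 𝒜 z) :
    ∃ (w : R →ₐ[ℂ] ℂ) (d : ℕ) (a : Fin d → 𝒢m 0) (_ : Fr S.m w d a) (t : Fin d → ℂ),
      MvPolynomial.aeval t (genPt S.m w a h) ≠ 0 ∧
      ∀ b ∈ 𝒢p 0, MvPolynomial.aeval t (genPt S.m w a b) = z b := sorry

/-- V3b. Nonvertex points lie over nonvertex points. -/
theorem nv_of [IsDomain R] (c : Cp S E) (q : c.SS →ₐ[ℂ] ℂ) {k : ℕ} (hk : 0 < k) {s : c.SS}
    (hs : (s : E) ∈ c.gr k) (hqs : q s ≠ 0) : ¬ IsVertex 𝒜 (q.comp c.φ) := sorry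

/-- V4. The group of the covering. -/
theorem exists_group [IsDomain R] [IsIntegrallyClosed R] (c : Cp S E) :
    ∃ Γ : Subgroup (c.SS ≃ₐ[ℂ] c.SS), Finite Γ ∧
      (∀ g ∈ Γ, ∃ σ : E ≃ₐ[ℂ] E, (∀ b ∈ 𝒢p 0, σ (c.x b) = c.x b) ∧ ∀ s : c.SS, σ s = g s) ∧
      (∀ σ : E ≃ₐ[ℂ] E, (∀ b ∈ 𝒢p 0, σ (c.x b) = c.x b) → ∃ g ∈ Γ, ∀ s : c.SS, σ s = g s) ∧
      ∀ s : c.SS, (∀ g ∈ Γ, g s = s) → ∃ b ∈ 𝒢p 0, c.x b = s := sorry

/-- V5. Two points of the covering over the same point are conjugate. -/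
theorem exists_conj [IsDomain R] [IsIntegrallyClosed R] (c : Cp S E) (q₁ q₂ : c.SS →ₐ[ℂ] ℂ)
    (hq : q₁.comp c.φ = q₂.comp c.φ) :
    ∃ σ : E ≃ₐ[ℂ] E, (∀ b ∈ 𝒢p 0, σ (c.x b) = c.x b) ∧
      ∀ s t : c.SS, (t : E) = σ s → q₁ s = q₂ t := sorry

/-- V6. The group acts freely. -/
theorem free [IsDomain R] [IsIntegrallyClosed R] (c : Cp S E) {σ : E ≃ₐ[ℂ] E}
    (hσ : ∀ b ∈ 𝒢p 0, σ (c.x b) = c.x b) {p : ℕ} (hp : p.Prime)
    (hσp : ∀ s ∈ c.SS, (σ : E → E)^[p] s = s) (q : c.SS →ₐ[ℂ] ℂ)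
    (hq : ¬ IsVertex 𝒜 (q.comp c.φ)) (t : ℂ)
    (ht : ∀ k, ∀ s s' : c.SS, (s : E) ∈ c.gr k → (s' : E) = σ s → q s' = t ^ k * q s) :
    ∀ s ∈ c.SS, σ s = s := sorry

/-- V7. Every nonvertex point is covered by a companion. -/
theorem exists_cover [IsDomain R] [IsIntegrallyClosed R] (c : Cp S E) (q : c.SS →ₐ[ℂ] ℂ)
    (hq : ¬ IsVertex 𝒜 (q.comp c.φ)) :
    ∃ c' : Cp S E, c.Rel c' ∧ ∃ s : c.SS, (s : E) = c'.x h ^ 2 ∧ q s ≠ 0 := sorry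

/-- V8a. The ring is integral over the subring generated by the elements of degree one. -/
theorem integral [IsDomain R] [IsIntegrallyClosed R] (c : Cp S E) :
    ∀ s ∈ c.SS, IsIntegral c.TT s := sorry

/-- V8f. Points extend. -/
theorem exists_ext [IsDomain R] [IsIntegrallyClosed R] (c : Cp S E) (z : c.TT →ₐ[ℂ] ℂ) :
    ∃ q : c.SS →ₐ[ℂ] ℂ, ∀ (s : c.TT) (s' : c.SS), (s : E) = s' → q s' = z s := sorry

/-- V8b. Every point of the subring is covered by a companion. -/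
theorem exists_cover_TT [IsDomain R] [IsIntegrallyClosed R] (c : Cp S E) (z : c.TT →ₐ[ℂ] ℂ)
    (hz : ∃ a ∈ c.WW, z a ≠ 0) :
    ∃ c' : Cp S E, c.Rel c' ∧ ∃ s : c.TT, (s : E) = c'.x h ^ 2 ∧ z s ≠ 0 := sorry

/-- V8c. The derivations of the subring are transitive. -/
theorem trans [IsDomain R] [IsIntegrallyClosed R] (c : Cp S E) (z : c.TT →ₐ[ℂ] ℂ)
    (hz : ∃ a ∈ c.WW, z a ≠ 0) (δ : c.TT →ₗ[ℂ] ℂ) (hδ : IsDer z δ) :
    ∃ D : Derivation ℂ c.TT c.TT, (∀ a ∈ c.WW, D a ∈ c.WW) ∧ ∀ r, δ r = z (D r) := sorry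

/-- V8d. The elements of degree one. -/
theorem exists_euler [IsDomain R] (c : Cp S E) : Module.Finite ℂ c.WW ∧
    Algebra.adjoin ℂ (c.WW : Set c.TT) = ⊤ ∧ c.WW ≠ ⊥ ∧
    ∃ E₀ : Derivation ℂ c.TT c.TT, ∀ a ∈ c.WW, E₀ a = a := sorry

/-- V8e. Localisation at the square of `h`. -/
theorem loc_mem [IsDomain R] {c c' : Cp S E} (hr : c.Rel c') {k : ℕ} {s : E} (hs : s ∈ c.gr k) :
    (c'.x h ^ 2) ^ k * s ∈ (c.gr 1) ^ (2 * k) := sorry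

/-- V9. There is no covering. -/
theorem exists_of_mem_SS [IsDomain R] [IsIntegrallyClosed R] (c : Cp S E) {s : E}
    (hs : s ∈ c.SS) : ∃ b ∈ 𝒢p 0, c.x b = s := sorry

/-- V10. There are no base points on the `+` side. -/
theorem gg [IsDomain R] [IsIntegrallyClosed R] (S : Tj C 𝒢m 𝒢p h)
    {z : R →ₐ[ℂ] ℂ} (hz : ∀ r, z (S.p.lo r) = z r) (hzv : ¬ IsVertex 𝒜 z) :
    ∃ g ∈ 𝒜 1, g ∈ 𝒢p 0 ∧ z g ≠ 0 := sorry

end SpecV

end Pool.Agent.Helper58.SH
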